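import Pool.Agent.Helper40.W4.Spec

/-! The conic step (part CON). -/

set_option autoImplicit false

namespace Pool.Agent.Helper88.W4

open Pool.Agent.Helper40.W4 Polynomial Module IntermediateField

section

variable {k k' : Type} [Field k] [Field k'] [CharZero k] [Algebra k k']

/-- a purely transcendental parameter -/
lemma trans_of_gen {x y t : k'} (hy : Transcendental k y) (hx : x ∈ k⟮t⟯) (hy' : y ∈ k⟮t⟯)
    (htop : adjoin k {x, y} = ⊤) : Transcendental k t ∧ k⟮t⟯ = ⊤ := by
  constructor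
  · intro halg
    apply hy
    have h1 : Algebra.IsAlgebraic k k⟮t⟯ := by
      have := IntermediateField.isAlgebraic_adjoin (K := k) (S := {t}) (by
        intro z hz
        rw [Set.mem_singleton_iff] at hz
        rw [hz]
        exact halg.isIntegral)
      exact this
    have h2 : IsAlgebraic k (⟨y, hy'⟩ : k⟮t⟯) := h1.isAlgebraic _
    exact h2.algebraMap (A := k')
  · rw [eq_top_iff, ← htop, adjoin_le_iff]
    rintro z (rfl | rfl)
    · exact hx
    · exact hy'

lemma case_square {α β : k} {x y : k'} {δ : k} (hδ : α = δ * δ) (hα : α ≠ 0) (hβ : β ≠ 0)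
    (hy : Transcendental k y)
    (heq : x ^ 2 = algebraMap k k' α * y ^ 2 + algebraMap k k' β) (htop : adjoin k {x, y} = ⊤) :
    ∃ t : k', Transcendental k t ∧ k⟮t⟯ = ⊤ := by
  have : CharZero k' := charZero_of_injective_algebraMap (algebraMap k k').injective
  set D := algebraMap k k' δ with hD
  have hD0 : D ≠ 0 := by
    rw [hD]
    simp only [ne_eq, map_eq_zero]
    rintro rfl
    exact hα (by rw [hδ]; ring)
  have hαD : algebraMap k k' α = D * D := by rw [hδ, map_mul]
  have hβ' : algebraMap k k' β ≠ 0 := by simpa using hβ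
  set t := x - D * y with ht
  have h1 : t * (x + D * y) = algebraMap k k' β := by
    rw [ht]
    linear_combination heq + y ^ 2 * hαD
  have ht0 : t ≠ 0 := by
    intro h
    rw [h, zero_mul] at h1
    exact hβ' h1.symm
  have h2 : x + D * y = algebraMap k k' β * t⁻¹ := by
    rw [← h1]
    field_simp
  have htm : t ∈ k⟮t⟯ := mem_adjoin_simple_self k t
  have h3 : algebraMap k k' β * t⁻¹ ∈ k⟮t⟯ := mul_mem (IntermediateField.algebraMap_mem _ _) (inv_mem htm)
  have hx : x = (t + algebraMap k k' β * t⁻¹) / 2 := by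
    rw [← h2, ht]; ring
  have hy' : y = (algebraMap k k' β * t⁻¹ - t) / (2 * D) := by
    rw [← h2, ht]; field_simp; ring
  refine ⟨t, trans_of_gen hy ?_ ?_ htop⟩
  · rw [hx]
    exact div_mem (add_mem htm h3) (ofNat_mem _ 2)
  · rw [hy']
    exact div_mem (sub_mem h3 htm) (mul_mem (ofNat_mem _ 2) (IntermediateField.algebraMap_mem _ _))

lemma case_point {α β : k} {x y : k'} {x₀ y₀ : k} (h0 : x₀ ^ 2 = α * y₀ ^ 2 + β) (hα : α ≠ 0)
    (hβ : β ≠ 0) (hy : Transcendental k y)
    (heq : x ^ 2 = algebraMap k k' α * y ^ 2 + algebraMap k k' β) (htop : adjoin k {x, y} = ⊤) :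
    ∃ t : k', Transcendental k t ∧ k⟮t⟯ = ⊤ := by
  have : CharZero k' := charZero_of_injective_algebraMap (algebraMap k k').injective
  set A := algebraMap k k' α with hA
  set B := algebraMap k k' β with hB
  set X := algebraMap k k' x₀ with hX
  set Y := algebraMap k k' y₀ with hY
  have hA0 : A ≠ 0 := by simpa [hA] using hα
  have hB0 : B ≠ 0 := by simpa [hB] using hβ
  have h0' : X ^ 2 = A * Y ^ 2 + B := by
    rw [hX, hY, hA, hB, ← map_pow, h0, map_add, map_mul, map_pow]
  have hyY : y - Y ≠ 0 := by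
    intro h
    apply hy
    rw [sub_eq_zero.1 h]
    exact isAlgebraic_algebraMap y₀
  set t := (x - X) / (y - Y) with ht
  have h1 : x - X = t * (y - Y) := by rw [ht]; field_simp
  have h2 : t * (x + X) = A * (y + Y) := by
    have h3 : (y - Y) * (t * (x + X)) = (y - Y) * (A * (y + Y)) := by
      calc (y - Y) * (t * (x + X)) = (t * (y - Y)) * (x + X) := by ring
        _ = (x - X) * (x + X) := by rw [h1]
        _ = (y - Y) * (A * (y + Y)) := by linear_combination heq - h0'
    exact mul_left_cancel₀ hyY h3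
  have h4 : (t ^ 2 - A) * (y - Y) = 2 * A * Y - 2 * X * t := by
    linear_combination h2 - t * h1
  have h5 : t ^ 2 - A ≠ 0 := by
    intro h
    rw [h, zero_mul] at h4
    have h6 : t ^ 2 = A := sub_eq_zero.1 h
    have h7 : A * Y = X * t := by
      have : (2 : k') * (A * Y) = 2 * (X * t) := by linear_combination -h4
      exact mul_left_cancel₀ two_ne_zero this
    have h8 : A * (A * Y ^ 2) = A * X ^ 2 := by
      calc A * (A * Y ^ 2) = (A * Y) ^ 2 := by ring
        _ = (X * t) ^ 2 := by rw [h7]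
        _ = A * X ^ 2 := by rw [mul_pow, h6]; ring
    have h9 := mul_left_cancel₀ hA0 h8
    apply hB0
    linear_combination -h9 - h0'
  have htm : t ∈ k⟮t⟯ := mem_adjoin_simple_self k t
  have hyt : y = Y + (2 * A * Y - 2 * X * t) / (t ^ 2 - A) := by
    rw [← h4]
    field_simp
    ring
  have hym : y ∈ k⟮t⟯ := by
    rw [hyt]
    refine add_mem (IntermediateField.algebraMap_mem _ _) (div_mem (sub_mem (mul_mem (mul_mem (ofNat_mem _ 2)
      (IntermediateField.algebraMap_mem _ _)) (IntermediateField.algebraMap_mem _ _)) (mul_mem (mul_mem (ofNat_mem _ 2)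
      (IntermediateField.algebraMap_mem _ _)) htm)) (sub_mem (pow_mem htm 2) (IntermediateField.algebraMap_mem _ _)))
  have hxm : x ∈ k⟮t⟯ := by
    have : x = X + t * (y - Y) := by rw [← h1]; ring
    rw [this]
    exact add_mem (IntermediateField.algebraMap_mem _ _) (mul_mem htm (sub_mem hym (IntermediateField.algebraMap_mem _ _)))
  exact ⟨t, trans_of_gen hy hxm hym htop⟩

omit [CharZero k] in
/-- leading coefficients -/
lemma square_of_sq {a : k} {P Q : k[X]} (hQ : Q ≠ 0) (h : C a * Q ^ 2 = P ^ 2) : IsSquare a := by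
  have h1 := congrArg Polynomial.leadingCoeff h
  rw [leadingCoeff_mul, leadingCoeff_C, leadingCoeff_pow, leadingCoeff_pow] at h1
  have hq : Q.leadingCoeff ≠ 0 := leadingCoeff_ne_zero.2 hQ
  refine ⟨P.leadingCoeff / Q.leadingCoeff, ?_⟩
  field_simp
  exact h1

omit [CharZero k] in
lemma lead_conic {α β : k} (hα : α ≠ 0) : (C α * X ^ 2 + C β : k[X]).leadingCoeff = α := by
  have h := leadingCoeff_quadratic (b := (0 : k)) (c := β) hα
  rw [C_0, zero_mul, add_zero] at h
  exact h

omit [CharZero k] in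
lemma square_of_conic {α β : k} {P Q : k[X]} (hα : α ≠ 0) (hQ : Q ≠ 0)
    (h : Q ^ 2 * (C α * X ^ 2 + C β) = P ^ 2) : IsSquare α := by
  have h1 := congrArg Polynomial.leadingCoeff h
  rw [leadingCoeff_mul, lead_conic hα, leadingCoeff_pow, leadingCoeff_pow] at h1
  have hq : Q.leadingCoeff ≠ 0 := leadingCoeff_ne_zero.2 hQ
  refine ⟨P.leadingCoeff / Q.leadingCoeff, ?_⟩
  field_simp
  linear_combination h1

/-- the conic polynomial is not a constant times a square -/
lemma not_conic {a α β : k} {P Q : k[X]} (hα : α ≠ 0) (hβ : β ≠ 0) (ha : a ≠ 0) (hQ : Q ≠ 0)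
    (h : C a * Q ^ 2 = P ^ 2 * (C α * X ^ 2 + C β)) : False := by
  -- square-freeness of the conic polynomial
  set g : k[X] := C α * X ^ 2 + C β with hg
  have hP : P ≠ 0 := by
    rintro rfl
    have : C a * Q ^ 2 ≠ 0 := mul_ne_zero (C_ne_zero.2 ha) (pow_ne_zero 2 hQ)
    apply this
    rw [h]
    ring
  have hdvd : P ∣ Q := by
    have h1 : P ^ 2 ∣ C a * Q ^ 2 := ⟨g, h⟩
    have h2 : P ^ 2 ∣ Q ^ 2 := by
      have hu : IsUnit (C a : k[X]) := isUnit_C.2 (isUnit_iff_ne_zero.2 ha)
      exact (hu.dvd_mul_left).1 h1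
    exact (UniqueFactorizationMonoid.pow_dvd_pow_iff_dvd two_ne_zero).1 h2
  obtain ⟨R, rfl⟩ := hdvd
  have hR : C a * R ^ 2 = g := by
    have : P ^ 2 * (C a * R ^ 2) = P ^ 2 * g := by rw [← h]; ring
    exact mul_left_cancel₀ (pow_ne_zero 2 hP) this
  have hd : g.natDegree = 2 := by
    have := natDegree_quadratic (b := (0 : k)) (c := β) hα
    rwa [C_0, zero_mul, add_zero] at this
  have hR1 : R.natDegree = 1 := by
    have := congrArg natDegree hR
    rw [hd, natDegree_C_mul ha, natDegree_pow] at this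
    omega
  -- derivative
  have hR' : (C a * (C 2 * R * derivative R)) = C α * (C 2 * X) := by
    have := congrArg derivative hR
    rw [hg] at this
    simp only [derivative_mul, derivative_C, derivative_pow, derivative_add, derivative_X,
      zero_mul, zero_add, Nat.cast_ofNat, add_zero, mul_one] at this
    simpa using this
  have h0 := congrArg (Polynomial.eval 0) hR'
  simp only [eval_mul, eval_C, eval_X, mul_zero] at h0
  have h00 := congrArg (Polynomial.eval 0) hR
  rw [hg] at h00
  simp only [eval_mul, eval_C, eval_X, mul_zero, eval_pow, eval_add, ne_eq, OfNat.ofNat_ne_zero,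
    not_false_eq_true, zero_pow, zero_add] at h00
  have hR0 : R.eval 0 ≠ 0 := by
    intro h
    rw [h] at h00
    apply hβ
    rw [← h00]
    ring
  have hR'0 : (derivative R).eval 0 = 0 := by
    have h2 : (2 : k) ≠ 0 := two_ne_zero
    rcases mul_eq_zero.1 h0 with h | h
    · exact absurd h ha
    · rcases mul_eq_zero.1 h with h' | h'
      · rcases mul_eq_zero.1 h' with h'' | h''
        · exact absurd h'' h2
        · exact absurd h'' hR0
      · exact h'
  rw [← coeff_zero_eq_eval_zero, coeff_derivative] at hR'0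
  simp only [zero_add, Nat.cast_zero, mul_one] at hR'0
  have : R.leadingCoeff = 0 := by rw [leadingCoeff, hR1, hR'0]
  rw [leadingCoeff_eq_zero] at this
  rw [this, natDegree_zero] at hR1
  exact zero_ne_one hR1

/-- elements of the function field of a conic -/
lemma repr {α β : k} {x y : k'} (hα : ¬ IsSquare α) (hy : Transcendental k y)
    (heq : x ^ 2 = algebraMap k k' α * y ^ 2 + algebraMap k k' β) (htop : adjoin k {x, y} = ⊤)
    (w : k') : ∃ A B D : k[X], D ≠ 0 ∧ w * aeval y D = aeval y A + aeval y B * x := by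
  have hα0 : α ≠ 0 := by
    rintro rfl
    exact hα ⟨0, by ring⟩
  have hinj : ∀ P : k[X], aeval y P = 0 → P = 0 := fun P hP =>
    (transcendental_iff.1 hy) P hP
  have hx2 : x ^ 2 = aeval y (C α * X ^ 2 + C β) := by
    rw [heq]
    simp [aeval_C]
  have hw : w ∈ adjoin k {x, y} := by rw [htop]; exact mem_top
  induction hw using IntermediateField.adjoin_induction with
  | mem z hz =>
    rcases hz with rfl | rfl
    · exact ⟨0, 1, 1, one_ne_zero, by simp⟩
    · exact ⟨X, 0, 1, one_ne_zero, by simp⟩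
  | algebraMap z => exact ⟨C z, 0, 1, one_ne_zero, by simp [aeval_C]⟩
  | add u v _ _ hu hv =>
    obtain ⟨A, B, D, hD, h⟩ := hu
    obtain ⟨A', B', D', hD', h'⟩ := hv
    refine ⟨A * D' + A' * D, B * D' + B' * D, D * D', mul_ne_zero hD hD', ?_⟩
    simp only [map_mul, map_add]
    linear_combination (aeval y D') * h + (aeval y D) * h'
  | mul u v _ _ hu hv =>
    obtain ⟨A, B, D, hD, h⟩ := hu
    obtain ⟨A', B', D', hD', h'⟩ := hv
    refine ⟨A * A' + B * B' * (C α * X ^ 2 + C β), A * B' + A' * B, D * D', mul_ne_zero hD hD', ?_⟩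
    rw [map_add, map_mul, map_mul (aeval y) (B * B'), ← hx2]
    simp only [map_mul, map_add]
    linear_combination (v * aeval y D') * h + (aeval y A + aeval y B * x) * h'
  | inv u _ hu =>
    obtain ⟨A, B, D, hD, h⟩ := hu
    by_cases hu0 : u = 0
    · exact ⟨0, 0, 1, one_ne_zero, by simp [hu0]⟩
    have hDy : aeval y D ≠ 0 := fun h0 => hD (hinj D h0)
    have hN : A ^ 2 - B ^ 2 * (C α * X ^ 2 + C β) ≠ 0 := by
      intro h0
      by_cases hB : B = 0
      · rw [hB] at h0
        have hA : A = 0 := by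
          have : A ^ 2 = 0 := by linear_combination h0
          exact pow_eq_zero_iff two_ne_zero |>.1 this
        rw [hA, hB, map_zero, zero_mul, add_zero] at h
        rcases mul_eq_zero.1 h with h1 | h1
        · exact hu0 h1
        · exact hDy h1
      · exact hα (square_of_conic hα0 hB (sub_eq_zero.1 h0).symm)
    refine ⟨A * D, -(B * D), A ^ 2 - B ^ 2 * (C α * X ^ 2 + C β), hN, ?_⟩
    have e1 : aeval y (A ^ 2 - B ^ 2 * (C α * X ^ 2 + C β)) =
        (aeval y A + aeval y B * x) * (aeval y A - aeval y B * x) := by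
      rw [map_sub, map_mul, ← hx2, map_pow, map_pow]
      ring
    rw [e1, ← h]
    simp only [map_mul, map_neg]
    field_simp
    ring

/-- a nonsquare remains a nonsquare -/
lemma nonsquare {a α β : k} {x y : k'} (ha : ¬ IsSquare a) (hα : ¬ IsSquare α) (hβ : β ≠ 0)
    (hy : Transcendental k y)
    (heq : x ^ 2 = algebraMap k k' α * y ^ 2 + algebraMap k k' β) (htop : adjoin k {x, y} = ⊤) :
    ¬ IsSquare (algebraMap k k' a) := by
  have : CharZero k' := charZero_of_injective_algebraMap (algebraMap k k').injective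
  have hα0 : α ≠ 0 := by
    rintro rfl
    exact hα ⟨0, by ring⟩
  have ha0 : a ≠ 0 := by
    rintro rfl
    exact ha ⟨0, by ring⟩
  have hinj : ∀ P : k[X], aeval y P = 0 → P = 0 := fun P hP =>
    (transcendental_iff.1 hy) P hP
  have hx2 : x ^ 2 = aeval y (C α * X ^ 2 + C β) := by
    rw [heq]
    simp [aeval_C]
  rintro ⟨w, hw⟩
  obtain ⟨A, B, D, hD, h⟩ := repr hα hy heq htop w
  have h1 : aeval y (C a * D ^ 2 - A ^ 2 - B ^ 2 * (C α * X ^ 2 + C β)) =
      aeval y (C 2 * A * B) * x := by
    rw [map_sub, map_mul (aeval y) (B ^ 2), ← hx2]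
    simp only [map_sub, map_mul, map_pow, aeval_C, hw, map_ofNat]
    linear_combination (w * aeval y D + aeval y A + aeval y B * x) * h
  by_cases hAB : A * B = 0
  · have h2 : C a * D ^ 2 - A ^ 2 - B ^ 2 * (C α * X ^ 2 + C β) = 0 := by
      apply hinj
      rw [h1, mul_assoc, hAB, mul_zero, map_zero, zero_mul]
    rcases mul_eq_zero.1 hAB with hA | hB
    · rw [hA] at h2
      exact not_conic (P := B) hα0 hβ ha0 hD (by linear_combination h2)
    · rw [hB] at h2
      exact ha (square_of_sq (P := A) hD (by linear_combination h2))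
  · set S := C a * D ^ 2 - A ^ 2 - B ^ 2 * (C α * X ^ 2 + C β) with hS
    have hQ : C 2 * A * B ≠ 0 := by
      rw [mul_assoc]
      exact mul_ne_zero (C_ne_zero.2 two_ne_zero) hAB
    have h2 : (C 2 * A * B) ^ 2 * (C α * X ^ 2 + C β) = S ^ 2 := by
      rw [← sub_eq_zero]
      apply hinj
      rw [map_sub, map_mul, map_pow, map_pow, ← hx2, h1]
      ring
    exact hα (square_of_conic hα0 hQ h2)

end

theorem con_thm (hRAT : S_RAT) (hFORM : S_FORM) (hEL2C : S_EL2C) : S_CON := by
  intro k k' _ _ _ _ a s σ σ' hσ hG α β x y hα hβ hy heq htop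
  by_cases h1 : IsSquare α
  · obtain ⟨δ, hδ⟩ := h1
    obtain ⟨t, ht, htt⟩ := case_square hδ hα hβ hy heq htop
    exact hRAT k k' a s σ σ' hσ hG t ht htt
  by_cases h2 : ∃ x₀ y₀ : k, x₀ ^ 2 = α * y₀ ^ 2 + β
  · obtain ⟨x₀, y₀, h0⟩ := h2
    obtain ⟨t, ht, htt⟩ := case_point h0 hα hβ hy heq htop
    exact hRAT k k' a s σ σ' hσ hG t ht htt
  have h3 : ∀ x₀ y₀ : k, x₀ ^ 2 ≠ α * y₀ ^ 2 + β := fun x₀ y₀ h => h2 ⟨x₀, y₀, h⟩
  exact hFORM k k' a s σ σ' hσ hG (nonsquare hG.nsq h1 hβ hy heq htop)
    (hEL2C k k' a s hG.nsq hG.s0 hG.sqf α β x y h1 hβ h3 hy heq htop)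

end Pool.Agent.Helper88.W4
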